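import Pool.Agent.Helper831.RadonBridge

namespace Pool.Agent.Results.MP_78211a_gt.RadonOrRiemannian

open Set Pool.Agent.Helper831.RadonPlane

/-- Every Finslerian projective-metric plane with symmetric perpendicularity is a Radon plane or
Riemannian: first for planes of affine type, then for planes of elliptic type. -/
theorem result :
    (∀ (M : Set (ℝ × ℝ)) (F d : ℝ × ℝ → ℝ × ℝ → ℝ),
      AffinePlane M d → AffineFinsler M F d → AffineSymmetric M d →
        (∀ x ∈ M, IsEuclidean (F x)) ∨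
          (M = univ ∧ ∃ N, IsRadon N ∧ ∀ x y, d x y = N (y - x))) ∧
    (∀ (L : ℝ) (F : (ℝ × ℝ) × ℝ → (ℝ × ℝ) × ℝ → ℝ)
        (d : Projectivization ℝ ((ℝ × ℝ) × ℝ) → Projectivization ℝ ((ℝ × ℝ) × ℝ) → ℝ),
      EllipticPlane L d → EllipticFinsler F d → EllipticSymmetric d →
        ∀ x, x ≠ 0 → IsEuclidean (F x)) :=
  ⟨fun _ _ _ h1 h2 h3 => affine h1 h2 h3, fun _ _ _ h1 h2 h3 x hx => elliptic h1 h2 h3 x hx⟩

end Pool.Agent.Results.MP_78211a_gt.RadonOrRiemannian
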